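import Pool.Agent.Q110.HC.Main

set_option autoImplicit false
open Finset

namespace Q110.HC

/-- For two distinct vertices `x, y` every Hamilton cycle has two disjoint edges, one through `x`
and one through `y`, and their union has four elements. -/
theorem two_edges {n : ℕ} (hn : 4 ≤ n) (c : Equiv.Perm (Fin n)) (x y : Fin n) (hxy : x ≠ y) :
    ∃ i j, Disjoint (edge c i) (edge c j) ∧ x ∈ edge c i ∧ y ∈ edge c j ∧
      (edge c i ∪ edge c j).card = 4 := by
  classical
  obtain ⟨m, rfl⟩ : ∃ m, n = m + 4 := ⟨n - 4, by omega⟩
  have key : ∀ i j : Fin (m + 4), i ≠ j → i + 1 ≠ j → j + 1 ≠ i →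
      Disjoint (edge c i) (edge c j) ∧ (edge c i ∪ edge c j).card = 4 := by
    intro i j h1 h2 h3
    have h4 : i + 1 ≠ j + 1 := fun h => h1 (add_right_cancel h)
    have hd : Disjoint (edge c i) (edge c j) := by
      unfold edge
      rw [finRotate_apply, finRotate_apply, Finset.disjoint_left]
      intro a ha hb
      simp only [Finset.mem_insert, Finset.mem_singleton] at ha hb
      rcases ha with rfl | rfl <;> rcases hb with hb | hb
      · exact h1 (c.injective hb)
      · exact h3 (c.injective hb).symm
      · exact h2 (c.injective hb)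
      · exact h4 (c.injective hb)
    refine ⟨hd, ?_⟩
    have hc : ∀ k : Fin (m + 4), (edge c k).card = 2 := by
      intro k
      unfold edge
      rw [Finset.card_pair]
      intro h
      exact next_ne (by omega) k (c.injective h).symm
    rw [Finset.card_union_of_disjoint hd, hc, hc]
  have mem1 : ∀ k : Fin (m + 4), c k ∈ edge c k := fun k => Finset.mem_insert_self _ _
  have mem2 : ∀ k : Fin (m + 4), c (k + 1) ∈ edge c k := fun k => by
    unfold edge
    rw [finRotate_apply]
    simp
  have one_val : (1 : Fin (m + 4)).val = 1 := Fin.val_one (m + 2)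
  have two_ne : (1 : Fin (m + 4)) + 1 ≠ 0 := by
    intro h
    have h2 := congrArg Fin.val h
    rw [Fin.val_add, one_val, Fin.val_zero] at h2
    rw [Nat.mod_eq_of_lt (by omega)] at h2
    omega
  have three_ne : (1 : Fin (m + 4)) + 1 + 1 ≠ 0 := by
    intro h
    have h2 := congrArg Fin.val h
    have e1 : ((1 : Fin (m + 4)) + 1).val = 2 := by
      rw [Fin.val_add, one_val]
      exact Nat.mod_eq_of_lt (by omega)
    rw [Fin.val_add, e1, one_val, Fin.val_zero] at h2
    rw [Nat.mod_eq_of_lt (by omega)] at h2
    omega
  obtain ⟨i, rfl⟩ := c.surjective x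
  obtain ⟨j, rfl⟩ := c.surjective y
  have hij : i ≠ j := fun h => hxy (by rw [h])
  by_cases h1 : i + 1 = j
  · -- use i - 1 and j
    have hi : i - 1 + 1 = i := sub_add_cancel i 1
    obtain ⟨k1, k2⟩ := key (i - 1) j (by
      rw [← h1]
      intro h
      have : (1 : Fin (m + 4)) + 1 = 0 := by
        have h5 : i = i + (1 + 1) := by rw [← add_assoc, ← h, hi]
        exact (left_eq_add.1 h5)
      exact two_ne this) (by rw [hi]; exact hij) (by
      rw [← h1]
      intro h
      have : (1 : Fin (m + 4)) + 1 + 1 = 0 := by
        have h5 : i = i + (1 + 1 + 1) := by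
          rw [← add_assoc, ← add_assoc, h, hi]
        exact (left_eq_add.1 h5)
      exact three_ne this)
    refine ⟨i - 1, j, k1, ?_, mem1 j, k2⟩
    have := mem2 (i - 1)
    rwa [hi] at this
  · by_cases h2 : j + 1 = i
    · have hj : j - 1 + 1 = j := sub_add_cancel j 1
      obtain ⟨k1, k2⟩ := key i (j - 1) (by
        rw [← h2]
        intro h
        have : (1 : Fin (m + 4)) + 1 = 0 := by
          have h5 : j = j + (1 + 1) := by rw [← add_assoc, h, hj]
          exact (left_eq_add.1 h5)
        exact two_ne this) (by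
        rw [← h2]
        intro h
        have : (1 : Fin (m + 4)) + 1 + 1 = 0 := by
          have h5 : j = j + (1 + 1 + 1) := by
            rw [← add_assoc, ← add_assoc, h, hj]
          exact (left_eq_add.1 h5)
        exact three_ne this) (by rw [hj]; exact hij.symm)
      refine ⟨i, j - 1, k1, mem1 i, ?_, k2⟩
      have := mem2 (j - 1)
      rwa [hj] at this
    · obtain ⟨k1, k2⟩ := key i j hij h1 h2
      exact ⟨i, j, k1, mem1 i, mem1 j, k2⟩

end Q110.HC
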