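import Mathlib

set_option autoImplicit false
open Finset

namespace Q110.HC

/-- Lopsided symmetric local lemma on a finite set, counting form. -/
theorem lopsided {Ω ι : Type} [Fintype Ω] [Nonempty Ω] [DecidableEq Ω] [Fintype ι] [DecidableEq ι]
    (A : ι → Finset Ω) (nb : ι → Finset ι) (q D : ℕ) (hD1 : 1 ≤ D)
    (hD : ∀ i, (nb i).card ≤ D) (hqD : 4 * D ≤ q)
    (hlop : ∀ i (S : Finset ι), (∀ j ∈ S, j ∉ nb i) →
      q * ((A i).filter (fun ω => ∀ j ∈ S, ω ∉ A j)).card ≤
        (Finset.univ.filter (fun ω => ∀ j ∈ S, ω ∉ A j)).card) :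
    ∃ ω, ∀ j, ω ∉ A j := by
  classical
  -- main claim
  have key : ∀ (k : ℕ) (S : Finset ι), S.card = k →
      0 < (Finset.univ.filter (fun ω => ∀ j ∈ S, ω ∉ A j)).card ∧
      ∀ i ∉ S, q * ((A i).filter (fun ω => ∀ j ∈ S, ω ∉ A j)).card ≤
        2 * (Finset.univ.filter (fun ω => ∀ j ∈ S, ω ∉ A j)).card := by
    intro k
    induction k using Nat.strong_induction_on with
    | _ k ih =>
      intro S hS
      have hpos : 0 < (Finset.univ.filter (fun ω => ∀ j ∈ S, ω ∉ A j)).card := by
        rcases S.eq_empty_or_nonempty with rfl | ⟨i, hi⟩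
        · simp [Fintype.card_pos]
        · have hc : (S.erase i).card < k := by
            rw [← hS]; exact Finset.card_erase_lt_of_mem hi
          obtain ⟨h1, h2⟩ := ih _ hc (S.erase i) rfl
          have h3 := h2 i (Finset.notMem_erase i S)
          have h4 : (Finset.univ.filter (fun ω => ∀ j ∈ S.erase i, ω ∉ A j)).card ≤
              (Finset.univ.filter (fun ω => ∀ j ∈ S, ω ∉ A j)).card +
              ((A i).filter (fun ω => ∀ j ∈ S.erase i, ω ∉ A j)).card := by
            refine le_trans (Finset.card_le_card ?_) (Finset.card_union_le _ _)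
            intro ω hω
            have hω' := (Finset.mem_filter.1 hω).2
            by_cases hA : ω ∈ A i
            · exact Finset.mem_union_right _ (Finset.mem_filter.2 ⟨hA, hω'⟩)
            · refine Finset.mem_union_left _ (Finset.mem_filter.2 ⟨Finset.mem_univ _, ?_⟩)
              intro j hj
              by_cases hji : j = i
              · rw [hji]; exact hA
              · exact hω' j (Finset.mem_erase.2 ⟨hji, hj⟩)
          by_contra hcon
          have h6 : (Finset.univ.filter (fun ω => ∀ j ∈ S, ω ∉ A j)).card = 0 := by omega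
          nlinarith
      refine ⟨hpos, fun i hi => ?_⟩
      by_cases hS1 : ∀ j ∈ S, j ∉ nb i
      · have := hlop i S hS1
        omega
      · push Not at hS1
        obtain ⟨j0, hj0, hj0'⟩ := hS1
        set S2 := S.filter (fun j => j ∉ nb i) with hS2
        have hc : S2.card < k := by
          rw [← hS]
          refine Finset.card_lt_card (Finset.filter_ssubset.2 ⟨j0, hj0, by simpa using hj0'⟩)
        obtain ⟨h1, h2⟩ := ih _ hc S2 rfl
        have h3 := hlop i S2 (fun j hj => (Finset.mem_filter.1 hj).2)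
        have h4 : ((A i).filter (fun ω => ∀ j ∈ S, ω ∉ A j)).card ≤
            ((A i).filter (fun ω => ∀ j ∈ S2, ω ∉ A j)).card := by
          refine Finset.card_le_card fun ω hω => ?_
          obtain ⟨h5, h6⟩ := Finset.mem_filter.1 hω
          exact Finset.mem_filter.2 ⟨h5, fun j hj => h6 j (Finset.mem_filter.1 hj).1⟩
        set S1 := S.filter (fun j => j ∈ nb i) with hS1
        have h5 : (Finset.univ.filter (fun ω => ∀ j ∈ S2, ω ∉ A j)).card ≤
            (Finset.univ.filter (fun ω => ∀ j ∈ S, ω ∉ A j)).card +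
            ∑ j ∈ S1, ((A j).filter (fun ω => ∀ j ∈ S2, ω ∉ A j)).card := by
          refine le_trans (Finset.card_le_card (t :=
            (Finset.univ.filter (fun ω => ∀ j ∈ S, ω ∉ A j)) ∪
            S1.biUnion (fun j => (A j).filter (fun ω => ∀ j ∈ S2, ω ∉ A j))) ?_)
            ((Finset.card_union_le _ _).trans (Nat.add_le_add_left Finset.card_biUnion_le _))
          intro ω hω
          have hω' := (Finset.mem_filter.1 hω).2
          by_cases hA : ∀ j ∈ S1, ω ∉ A j
          · refine Finset.mem_union_left _ (Finset.mem_filter.2 ⟨Finset.mem_univ _, ?_⟩)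
            intro j hj
            by_cases hji : j ∈ nb i
            · exact hA j (Finset.mem_filter.2 ⟨hj, hji⟩)
            · exact hω' j (Finset.mem_filter.2 ⟨hj, hji⟩)
          · push Not at hA
            obtain ⟨j, hj, hj'⟩ := hA
            exact Finset.mem_union_right _ (Finset.mem_biUnion.2 ⟨j, hj,
              Finset.mem_filter.2 ⟨hj', hω'⟩⟩)
        have h6 : q * ∑ j ∈ S1, ((A j).filter (fun ω => ∀ j ∈ S2, ω ∉ A j)).card ≤
            D * (2 * (Finset.univ.filter (fun ω => ∀ j ∈ S2, ω ∉ A j)).card) := by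
          rw [Finset.mul_sum]
          have hS1c : S1.card ≤ D := by
            refine le_trans (Finset.card_le_card ?_) (hD i)
            intro j hj
            exact (Finset.mem_filter.1 hj).2
          refine (Finset.sum_le_card_nsmul _ _ _ (fun j hj => ?_)).trans
            (Nat.mul_le_mul_right _ hS1c)
          refine h2 j ?_
          intro hj2
          exact (Finset.mem_filter.1 hj2).2 (Finset.mem_filter.1 hj).2
        set a := ((A i).filter (fun ω => ∀ j ∈ S, ω ∉ A j)).card
        set a2 := ((A i).filter (fun ω => ∀ j ∈ S2, ω ∉ A j)).card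
        set b := (Finset.univ.filter (fun ω => ∀ j ∈ S, ω ∉ A j)).card
        set b2 := (Finset.univ.filter (fun ω => ∀ j ∈ S2, ω ∉ A j)).card
        set c := ∑ j ∈ S1, ((A j).filter (fun ω => ∀ j ∈ S2, ω ∉ A j)).card
        -- q a ≤ q a2 ≤ b2, b2 ≤ b + c, q c ≤ 2 D b2, 4 D ≤ q
        have h7 : q * a ≤ b2 := (Nat.mul_le_mul_left q h4).trans h3
        have h8 : q * b2 ≤ q * b + q * c := by
          rw [← Nat.mul_add]
          exact Nat.mul_le_mul_left q h5
        have h9 : 4 * D * b2 ≤ q * b2 := Nat.mul_le_mul_right _ hqD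
        have h10 : q * b2 ≤ q * (2 * b) := by nlinarith
        have hq0 : 0 < q := by omega
        have h11 : b2 ≤ 2 * b := Nat.le_of_mul_le_mul_left h10 hq0
        exact h7.trans h11
  obtain ⟨h, _⟩ := key _ (Finset.univ : Finset ι) rfl
  obtain ⟨ω, hω⟩ := Finset.card_pos.1 h
  exact ⟨ω, fun j => (Finset.mem_filter.1 hω).2 j (Finset.mem_univ j)⟩

/-- A permutation taking `v` to `w` and fixing everything outside the two ranges. -/
theorem exists_move {α : Type} [Fintype α] [DecidableEq α] {k : ℕ} (v w : Fin k ↪ α) :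
    ∃ τ : Equiv.Perm α, (∀ a, τ (v a) = w a) ∧
      ∀ x, x ∉ Set.range v → x ∉ Set.range w → τ x = x := by
  classical
  -- work in the subtype
  let p : α → Prop := fun x => x ∈ Set.range v ∨ x ∈ Set.range w
  let e : {y : {x // p x} // y.1 ∈ Set.range v} ≃ {y : {x // p x} // y.1 ∈ Set.range w} :=
    { toFun := fun y => ⟨⟨w y.2.choose, Or.inr ⟨_, rfl⟩⟩, ⟨_, rfl⟩⟩
      invFun := fun y => ⟨⟨v y.2.choose, Or.inl ⟨_, rfl⟩⟩, ⟨_, rfl⟩⟩
      left_inv := by
        rintro ⟨⟨x, hx⟩, hy⟩
        apply Subtype.ext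
        apply Subtype.ext
        simp only
        have h1 : ∃ a, w a = w (hy.choose) := ⟨_, rfl⟩
        have h2 : h1.choose = hy.choose := w.injective h1.choose_spec
        change v h1.choose = x
        rw [h2]
        exact hy.choose_spec
      right_inv := by
        rintro ⟨⟨x, hx⟩, hy⟩
        apply Subtype.ext
        apply Subtype.ext
        simp only
        have h1 : ∃ a, v a = v (hy.choose) := ⟨_, rfl⟩
        have h2 : h1.choose = hy.choose := v.injective h1.choose_spec
        change w h1.choose = x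
        rw [h2]
        exact hy.choose_spec }
  refine ⟨Equiv.Perm.ofSubtype (Equiv.extendSubtype e), ?_, ?_⟩
  · intro a
    have hp : p (v a) := Or.inl ⟨a, rfl⟩
    rw [Equiv.Perm.ofSubtype_apply_of_mem _ hp]
    have hm : (⟨v a, hp⟩ : {x // p x}).1 ∈ Set.range v := ⟨a, rfl⟩
    rw [Equiv.extendSubtype_apply_of_mem e _ hm]
    have h1 : ∃ b, v b = v a := ⟨_, rfl⟩
    have h2 : h1.choose = a := v.injective h1.choose_spec
    change w h1.choose = w a
    rw [h2]
  · intro x hx hx'
    refine Equiv.Perm.ofSubtype_apply_of_not_mem _ ?_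
    rintro (h | h)
    · exact hx h
    · exact hx' h

/-- Partial matchings as events on permutations: switching bound. -/
theorem switching {α ι : Type} [Fintype α] [DecidableEq α] {k : ℕ}
    (P V : ι → (Fin k ↪ α)) (i : ι) (S : Finset ι)
    (hP : ∀ j ∈ S, Disjoint (Set.range (P j)) (Set.range (P i)))
    (hV : ∀ j ∈ S, Disjoint (Set.range (V j)) (Set.range (V i))) :
    Fintype.card (Fin k ↪ α) * (Finset.univ.filter (fun σ : Equiv.Perm α =>
        (∀ a, σ (P i a) = V i a) ∧ ∀ j ∈ S, ¬ ∀ a, σ (P j a) = V j a)).card ≤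
      (Finset.univ.filter (fun σ : Equiv.Perm α => ∀ j ∈ S, ¬ ∀ a, σ (P j a) = V j a)).card := by
  classical
  choose τ hτ1 hτ2 using fun w : Fin k ↪ α => exists_move (V i) w
  rw [← Finset.card_univ, ← Finset.card_product]
  refine Finset.card_le_card_of_injOn (fun p => τ p.1 * p.2) ?_ ?_
  · rintro ⟨w, σ⟩ h
    simp only [Finset.coe_product, Finset.coe_univ, Set.mem_prod, Set.mem_univ, true_and,
      Finset.coe_filter, Finset.mem_univ, Set.mem_ofPred_eq] at h ⊢
    obtain ⟨h1, h2⟩ := h
    intro j hj hcon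
    refine h2 j hj fun a => ?_
    have h3 := hcon a
    rw [Equiv.Perm.mul_apply] at h3
    -- V j a is not in range of w, nor range V i
    have h4 : V j a ∉ Set.range w := by
      rintro ⟨b, hb⟩
      rw [← hτ1 w b, ← h1 b] at hb
      rw [← hb] at h3
      have h5 := σ.injective ((τ w).injective h3)
      exact Set.disjoint_left.1 (hP j hj) ⟨a, rfl⟩ (h5 ▸ ⟨b, rfl⟩)
    have h5 : V j a ∉ Set.range (V i) := fun h => Set.disjoint_left.1 (hV j hj) ⟨a, rfl⟩ h
    have h6 := hτ2 w (V j a) h5 h4
    rw [← h6] at h3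
    exact (τ w).injective h3
  · rintro ⟨w, σ⟩ h ⟨w', σ'⟩ h' he
    simp only [Finset.coe_product, Finset.coe_univ, Set.mem_prod, Set.mem_univ, true_and,
      Finset.coe_filter, Finset.mem_univ, Set.mem_ofPred_eq] at h h'
    simp only at he
    have hw : w = w' := by
      ext a
      have h1 : (τ w * σ) (P i a) = w a := by
        rw [Equiv.Perm.mul_apply, h.1 a, hτ1]
      have h2 : (τ w' * σ') (P i a) = w' a := by
        rw [Equiv.Perm.mul_apply, h'.1 a, hτ1]
      rw [← h1, ← h2, he]
    subst hw
    have := mul_left_cancel he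
    rw [this]

end Q110.HC
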