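import Pool.Agent.Q110.HC.LLL

set_option autoImplicit false
open Finset

namespace Q110.HC

/-- The edge of the cyclic ordering `c` between positions `i` and `i + 1` (cyclically). -/
def edge {n : ℕ} (c : Equiv.Perm (Fin n)) (i : Fin n) : Finset (Fin n) :=
  {c i, c (finRotate n i)}

/-- The Hamilton cycle `c 0, c 1, ..., c (n-1)` (a cyclic ordering of `Fin n`) is
`(2,2)`-acceptable with respect to `F`: no two vertex-disjoint edges have their union in `F`. -/
def Acceptable {n : ℕ} (F : Finset (Finset (Fin n))) (c : Equiv.Perm (Fin n)) : Prop :=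
  ∀ i j : Fin n, Disjoint (edge c i) (edge c j) → edge c i ∪ edge c j ∉ F

/-- number of members of `F` containing the vertex `u` -/
def deg {n : ℕ} (F : Finset (Finset (Fin n))) (u : Fin n) : ℕ :=
  (F.filter (fun X => u ∈ X)).card

theorem fin4 : ∀ a : Fin 4, a = 0 ∨ a = 1 ∨ a = 2 ∨ a = 3 := by decide

theorem next_ne {n : ℕ} (hn : 2 ≤ n) (i : Fin n) : finRotate n i ≠ i := by
  obtain ⟨m, rfl⟩ : ∃ m, n = m + 2 := ⟨n - 2, by omega⟩
  rw [finRotate_apply]
  intro h
  have h1 : (1 : Fin (m + 2)) = 0 := by
    have := add_left_cancel (h.trans (add_zero i).symm)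
    exact this
  simp at h1

/-- the events -/
abbrev Idx {n : ℕ} (F : Finset (Finset (Fin n))) : Type :=
  {x : (Fin 4 ↪ Fin n) × (Fin 4 ↪ Fin n) //
    (x.1 1 = finRotate n (x.1 0) ∧ x.1 3 = finRotate n (x.1 2)) ∧
      (Finset.univ : Finset (Fin 4)).map x.2 ∈ F}

section Count

variable {n : ℕ} (F : Finset (Finset (Fin n)))

/-- position embeddings -/
noncomputable def Pos (n : ℕ) : Finset (Fin 4 ↪ Fin n) :=
  Finset.univ.filter (fun P => P 1 = finRotate n (P 0) ∧ P 3 = finRotate n (P 2))

/-- value embeddings -/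
noncomputable def Val (F : Finset (Finset (Fin n))) : Finset (Fin 4 ↪ Fin n) :=
  Finset.univ.filter (fun V => (Finset.univ : Finset (Fin 4)).map V ∈ F)

theorem pos_ext {P P' : Fin 4 ↪ Fin n} (hP : P ∈ Pos n) (hP' : P' ∈ Pos n) (h0 : P 0 = P' 0)
    (h2 : P 2 = P' 2) : P = P' := by
  have h1 := (Finset.mem_filter.1 hP).2
  have h1' := (Finset.mem_filter.1 hP').2
  ext a
  have ha := fin4 a
  rcases ha with rfl | rfl | rfl | rfl
  · rw [h0]
  · rw [h1.1, h1'.1, h0]
  · rw [h2]
  · rw [h1.2, h1'.2, h2]

theorem pos_card : (Pos n).card ≤ n * n := by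
  classical
  have h := Finset.card_le_card_of_injOn (s := Pos n) (t := (Finset.univ : Finset (Fin n × Fin n)))
    (fun P => (P 0, P 2)) (fun _ _ => Finset.mem_coe.2 (Finset.mem_univ _)) (by
      intro P hP P' hP' h
      simp only [Prod.mk.injEq] at h
      exact pos_ext (Finset.mem_coe.1 hP) (Finset.mem_coe.1 hP') h.1 h.2)
  simpa using h

/-- positions with a prescribed value at a prescribed index -/
theorem pos_fix (b : Fin 4) (u : Fin n) : ((Pos n).filter (fun P => P b = u)).card ≤ n := by
  classical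
  have key : ∀ (T : Finset (Fin 4 ↪ Fin n)) (g : (Fin 4 ↪ Fin n) → Fin n), (∀ P ∈ T,
      ∀ P' ∈ T, g P = g P' → P = P') → T.card ≤ n := by
    intro T g hg
    have h := Finset.card_le_card_of_injOn (s := T)
      (t := (Finset.univ : Finset (Fin n))) g (fun _ _ => Finset.mem_coe.2 (Finset.mem_univ _))
      (fun P hP P' hP' h => hg P hP P' hP' h)
    simpa using h
  have hb := fin4 b
  rcases hb with rfl | rfl | rfl | rfl
  · refine key _ (fun P => P 2) ?_
    intro P hP P' hP' h
    obtain ⟨h1, h2⟩ := Finset.mem_filter.1 hP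
    obtain ⟨h1', h2'⟩ := Finset.mem_filter.1 hP'
    exact pos_ext h1 h1' (h2.trans h2'.symm) h
  · refine key _ (fun P => P 2) ?_
    intro P hP P' hP' h
    obtain ⟨h1, h2⟩ := Finset.mem_filter.1 hP
    obtain ⟨h1', h2'⟩ := Finset.mem_filter.1 hP'
    have e1 := (Finset.mem_filter.1 h1).2.1
    have e2 := (Finset.mem_filter.1 h1').2.1
    have h3 : finRotate n (P 0) = finRotate n (P' 0) := by
      rw [← e1, ← e2]
      exact h2.trans h2'.symm
    exact pos_ext h1 h1' ((finRotate n).injective h3) h
  · refine key _ (fun P => P 0) ?_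
    intro P hP P' hP' h
    obtain ⟨h1, h2⟩ := Finset.mem_filter.1 hP
    obtain ⟨h1', h2'⟩ := Finset.mem_filter.1 hP'
    exact pos_ext h1 h1' h (h2.trans h2'.symm)
  · refine key _ (fun P => P 0) ?_
    intro P hP P' hP' h
    obtain ⟨h1, h2⟩ := Finset.mem_filter.1 hP
    obtain ⟨h1', h2'⟩ := Finset.mem_filter.1 hP'
    have e1 := (Finset.mem_filter.1 h1).2.2
    have e2 := (Finset.mem_filter.1 h1').2.2
    have h3 : finRotate n (P 2) = finRotate n (P' 2) := by
      rw [← e1, ← e2]
      exact h2.trans h2'.symm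
    exact pos_ext h1 h1' h ((finRotate n).injective h3)

theorem pos_meet (P : Fin 4 ↪ Fin n) :
    ((Pos n).filter (fun P' => ∃ a b, P' b = P a)).card ≤ 16 * n := by
  classical
  have h1 : (Pos n).filter (fun P' => ∃ a b, P' b = P a) ⊆
      (Finset.univ : Finset (Fin 4 × Fin 4)).biUnion
        (fun x => (Pos n).filter (fun P' => P' x.2 = P x.1)) := by
    intro P' hP'
    obtain ⟨h1, a, b, h2⟩ := Finset.mem_filter.1 hP'
    exact Finset.mem_biUnion.2 ⟨(a, b), Finset.mem_univ _, Finset.mem_filter.2 ⟨h1, h2⟩⟩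
  refine (Finset.card_le_card h1).trans
    ((Finset.card_biUnion_le_card_mul _ _ n (fun x _ => pos_fix x.2 (P x.1))).trans ?_)
  simp

variable (d : ℕ) (hd : ∀ u, deg F u ≤ d)

include hd in
theorem val_fix (b : Fin 4) (u : Fin n) : ((Val F).filter (fun V => V b = u)).card ≤ 24 * d := by
  classical
  have h1 : (Val F).filter (fun V => V b = u) ⊆ (F.filter (fun X => u ∈ X)).biUnion
      (fun X => (Finset.univ : Finset (Fin 4 ↪ Fin n)).filter
        (fun V => (Finset.univ : Finset (Fin 4)).map V = X)) := by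
    intro V hV
    obtain ⟨h1, h2⟩ := Finset.mem_filter.1 hV
    have h3 := (Finset.mem_filter.1 h1).2
    refine Finset.mem_biUnion.2 ⟨_, Finset.mem_filter.2 ⟨h3, ?_⟩,
      Finset.mem_filter.2 ⟨Finset.mem_univ _, rfl⟩⟩
    rw [← h2]
    exact Finset.mem_map_of_mem _ (Finset.mem_univ b)
  have h2 : ∀ X ∈ F.filter (fun X => u ∈ X), ((Finset.univ : Finset (Fin 4 ↪ Fin n)).filter
        (fun V => (Finset.univ : Finset (Fin 4)).map V = X)).card ≤ 24 := by
    intro X _
    rcases ((Finset.univ : Finset (Fin 4 ↪ Fin n)).filter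
        (fun V => (Finset.univ : Finset (Fin 4)).map V = X)).eq_empty_or_nonempty with h | ⟨V0, hV0⟩
    · rw [h]; simp
    · have hX : X.card = 4 := by
        rw [← (Finset.mem_filter.1 hV0).2, Finset.card_map]
        simp
      have hmem : ∀ V ∈ ((Finset.univ : Finset (Fin 4 ↪ Fin n)).filter
        (fun V => (Finset.univ : Finset (Fin 4)).map V = X)), ∀ a, V a ∈ X := by
        intro V hV a
        rw [← (Finset.mem_filter.1 hV).2]
        exact Finset.mem_map_of_mem _ (Finset.mem_univ a)
      have h3 : ((Finset.univ : Finset (Fin 4 ↪ Fin n)).filter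
          (fun V => (Finset.univ : Finset (Fin 4)).map V = X)).card ≤
          Fintype.card (Fin 4 ↪ X) := by
        rw [← Finset.card_univ]
        refine Finset.card_le_card_of_injOn (fun V => if h : ∀ a, V a ∈ X then
          (⟨fun a => ⟨V a, h a⟩, fun a b hab => V.injective (by simpa using hab)⟩ : Fin 4 ↪ X)
          else ⟨fun a => ⟨V0 a, hmem V0 hV0 a⟩, fun a b hab => V0.injective (by simpa using hab)⟩)
          (fun _ _ => Finset.mem_coe.2 (Finset.mem_univ _)) ?_
        intro V hV V' hV' h
        have e1 := hmem V (Finset.mem_coe.1 hV)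
        have e2 := hmem V' (Finset.mem_coe.1 hV')
        simp only [e1, e2, implies_true, dif_pos] at h
        ext a
        have := congrArg (fun (e : Fin 4 ↪ X) => ((e a : X) : Fin n)) h
        exact congrArg Fin.val this
      refine h3.trans (le_of_eq ?_)
      rw [Fintype.card_embedding_eq, Fintype.card_coe, hX, Fintype.card_fin]
      rfl
  refine (Finset.card_le_card h1).trans ((Finset.card_biUnion_le_card_mul _ _ 24 h2).trans ?_)
  rw [mul_comm]
  exact Nat.mul_le_mul_left _ (hd u)

include hd in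
theorem val_card : (Val F).card ≤ n * (24 * d) := by
  classical
  have h1 : Val F ⊆ (Finset.univ : Finset (Fin n)).biUnion
      (fun u => (Val F).filter (fun V => V 0 = u)) := by
    intro V hV
    exact Finset.mem_biUnion.2 ⟨V 0, Finset.mem_univ _, Finset.mem_filter.2 ⟨hV, rfl⟩⟩
  refine (Finset.card_le_card h1).trans
    ((Finset.card_biUnion_le_card_mul _ _ _ (fun u _ => val_fix F d hd 0 u)).trans ?_)
  simp

include hd in
theorem val_meet (V : Fin 4 ↪ Fin n) :
    ((Val F).filter (fun V' => ∃ a b, V' b = V a)).card ≤ 16 * (24 * d) := by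
  classical
  have h1 : (Val F).filter (fun V' => ∃ a b, V' b = V a) ⊆
      (Finset.univ : Finset (Fin 4 × Fin 4)).biUnion
        (fun x => (Val F).filter (fun V' => V' x.2 = V x.1)) := by
    intro V' hV'
    obtain ⟨h1, a, b, h2⟩ := Finset.mem_filter.1 hV'
    exact Finset.mem_biUnion.2 ⟨(a, b), Finset.mem_univ _, Finset.mem_filter.2 ⟨h1, h2⟩⟩
  refine (Finset.card_le_card h1).trans
    ((Finset.card_biUnion_le_card_mul _ _ _ (fun x _ => val_fix F d hd x.2 (V x.1))).trans ?_)
  simp

/-- neighbours -/
noncomputable def nb (x : Idx F) : Finset (Idx F) := by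
  classical
  exact Finset.univ.filter (fun y => (∃ a b, y.1.1 b = x.1.1 a) ∨ ∃ a b, y.1.2 b = x.1.2 a)

include hd in
theorem nb_card (x : Idx F) : (nb F x).card ≤ 768 * (n * n) * d := by
  classical
  have h1 : (nb F x).card ≤ (((Pos n).filter (fun P' => ∃ a b, P' b = x.1.1 a)) ×ˢ Val F ∪
      Pos n ×ˢ ((Val F).filter (fun V' => ∃ a b, V' b = x.1.2 a))).card := by
    refine Finset.card_le_card_of_injOn (fun y => y.1) ?_ ?_
    · intro y hy
      have hy' : (∃ a b, y.1.1 b = x.1.1 a) ∨ ∃ a b, y.1.2 b = x.1.2 a := by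
        have := Finset.mem_coe.1 hy
        unfold nb at this
        exact (Finset.mem_filter.1 this).2
      have hp : y.1.1 ∈ Pos n := Finset.mem_filter.2 ⟨Finset.mem_univ _, y.2.1⟩
      have hv : y.1.2 ∈ Val F := Finset.mem_filter.2 ⟨Finset.mem_univ _, y.2.2⟩
      rw [Finset.mem_coe, Finset.mem_union]
      rcases hy' with h | h
      · exact Or.inl (Finset.mem_product.2 ⟨Finset.mem_filter.2 ⟨hp, h⟩, hv⟩)
      · exact Or.inr (Finset.mem_product.2 ⟨hp, Finset.mem_filter.2 ⟨hv, h⟩⟩)
    · intro y _ z _ h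
      exact Subtype.ext h
  refine h1.trans ((Finset.card_union_le _ _).trans ?_)
  rw [Finset.card_product, Finset.card_product]
  have e1 := Nat.mul_le_mul (pos_meet (n := n) x.1.1) (val_card F d hd)
  have e2 := Nat.mul_le_mul (pos_card (n := n)) (val_meet F d hd x.1.2)
  calc _ ≤ 16 * n * (n * (24 * d)) + n * n * (16 * (24 * d)) := Nat.add_le_add e1 e2
    _ = 768 * (n * n) * d := by ring

end Count

/-- If every vertex lies in at most `n² / 7000` members of the 4-uniform family `F`, there is an
acceptable Hamilton cycle. -/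
theorem main {n : ℕ} (hn : 10 ≤ n) (F : Finset (Finset (Fin n)))
    (hd : ∀ u, 7000 * deg F u ≤ n * n) : ∃ c : Equiv.Perm (Fin n), Acceptable F c := by
  classical
  set d := n * n / 7000 with hdd
  have hd' : ∀ u, deg F u ≤ d := fun u => by
    rw [hdd, Nat.le_div_iff_mul_le (by norm_num)]
    have := hd u
    omega
  have hcard : Fintype.card (Fin 4 ↪ Fin n) = n * (n - 1) * (n - 2) * (n - 3) := by
    rw [Fintype.card_embedding_eq, Fintype.card_fin, Fintype.card_fin]
    simp only [Nat.descFactorial_succ, Nat.descFactorial_zero]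
    rw [Nat.sub_zero]
    ring
  obtain ⟨σ, hσ⟩ := lopsided (Ω := Equiv.Perm (Fin n)) (ι := Idx F)
    (fun x => Finset.univ.filter (fun σ => ∀ a, σ (x.1.1 a) = x.1.2 a)) (nb F)
    (Fintype.card (Fin 4 ↪ Fin n)) (768 * (n * n) * d + 1) (by omega)
    (fun x => (nb_card F d hd' x).trans (Nat.le_succ _)) (by
      rw [hcard]
      obtain ⟨m, rfl⟩ : ∃ m, n = m + 10 := ⟨n - 10, by omega⟩
      have h1 : 7000 * d ≤ (m + 10) * (m + 10) := Nat.mul_div_le _ _
      have h2 : (m + 10) - 1 = m + 9 := by omega
      have h3 : (m + 10) - 2 = m + 8 := by omega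
      have h4 : (m + 10) - 3 = m + 7 := by omega
      rw [h2, h3, h4]
      have h5 : 3072 * ((m + 10) * (m + 10)) * (7000 * d) ≤
          3072 * ((m + 10) * (m + 10)) * ((m + 10) * (m + 10)) := Nat.mul_le_mul_left _ h1
      nlinarith [h5, sq_nonneg (m : ℤ)]) (by
      intro x S hS
      have h := switching (fun y : Idx F => y.1.1) (fun y => y.1.2) x S (by
        intro j hj
        have h1 := hS j hj
        unfold nb at h1
        simp only [Finset.mem_filter, Finset.mem_univ, true_and, not_or, not_exists] at h1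
        rw [Set.disjoint_left]
        rintro _ ⟨b, rfl⟩ ⟨a, ha⟩
        exact h1.1 a b ha.symm) (by
        intro j hj
        have h1 := hS j hj
        unfold nb at h1
        simp only [Finset.mem_filter, Finset.mem_univ, true_and, not_or, not_exists] at h1
        rw [Set.disjoint_left]
        rintro _ ⟨b, rfl⟩ ⟨a, ha⟩
        exact h1.2 a b ha.symm)
      rw [Finset.filter_filter]
      simpa using h)
  refine ⟨σ, fun i j hij hF => ?_⟩
  have hinj : Function.Injective (![i, finRotate n i, j, finRotate n j] : Fin 4 → Fin n) := by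
    have e1 := next_ne (by omega) i
    have e2 := next_ne (by omega) j
    have hne : ∀ x ∈ ({i, finRotate n i} : Finset (Fin n)),
        ∀ y ∈ ({j, finRotate n j} : Finset (Fin n)), x ≠ y := by
      intro x hx y hy hxy
      subst hxy
      have h1 : σ x ∈ edge σ i := by
        unfold edge
        rcases Finset.mem_insert.1 hx with rfl | hx
        · exact Finset.mem_insert_self _ _
        · rw [Finset.mem_singleton.1 hx]; simp
      have h2 : σ x ∈ edge σ j := by
        unfold edge
        rcases Finset.mem_insert.1 hy with rfl | hy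
        · exact Finset.mem_insert_self _ _
        · rw [Finset.mem_singleton.1 hy]; simp
      exact Finset.disjoint_left.1 hij h1 h2
    have f1 := hne i (by simp) j (by simp)
    have f2 := hne i (by simp) (finRotate n j) (by simp)
    have f3 := hne (finRotate n i) (by simp) j (by simp)
    have f4 := hne (finRotate n i) (by simp) (finRotate n j) (by simp)
    intro a b hab
    have ha := fin4 a
    have hb := fin4 b
    rcases ha with rfl | rfl | rfl | rfl <;> rcases hb with rfl | rfl | rfl | rfl
    · rfl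
    · exact absurd hab.symm e1
    · exact absurd hab f1
    · exact absurd hab f2
    · exact absurd hab e1
    · rfl
    · exact absurd hab f3
    · exact absurd hab f4
    · exact absurd hab.symm f1
    · exact absurd hab.symm f3
    · rfl
    · exact absurd hab.symm e2
    · exact absurd hab.symm f2
    · exact absurd hab.symm f4
    · exact absurd hab e2
    · rfl
  let P : Fin 4 ↪ Fin n := ⟨_, hinj⟩
  have himg : (Finset.univ : Finset (Fin 4)).map (P.trans σ.toEmbedding) = edge σ i ∪ edge σ j := by
    ext x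
    simp only [Finset.mem_map, Finset.mem_univ, true_and, Finset.mem_union, edge,
      Finset.mem_insert, Finset.mem_singleton, Function.Embedding.trans_apply]
    constructor
    · rintro ⟨a, rfl⟩
      fin_cases a
      · left; left; rfl
      · left; right; rfl
      · right; left; rfl
      · right; right; rfl
    · rintro ((rfl | rfl) | (rfl | rfl))
      · exact ⟨0, rfl⟩
      · exact ⟨1, rfl⟩
      · exact ⟨2, rfl⟩
      · exact ⟨3, rfl⟩
  have h := hσ ⟨(P, P.trans σ.toEmbedding), ⟨rfl, rfl⟩, by rw [himg]; exact hF⟩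
  simp at h

end Q110.HC
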